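import Pool.Agent.H99.SIF.Un

/-! MP_008206_co, unordered form: matrices whose rows and columns all have the same number of
ones (and nearly regular ones).  If `(R, C)` is a copy, `v` a column outside `C` and `r` a row of
`R` in `v`, then a copy through `(r, v)` contains a column `q` of `C` (else `r` has few ones), and
`v` and `q` together have at most `x + 2` ones; so `v` has few ones in `R`. -/

namespace SIFU
open Finset

variable {P Q : Type} [Fintype P] [Fintype Q] [DecidableEq P] [DecidableEq Q]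

theorem reg_key {A : P → Q → Bool} {k x δ : ℕ} (cP : Fintype.card P = k + x)
    (cQ : Fintype.card Q = k + x) (hU : U A k) (hr : ∀ r, x + 3 ≤ (Nr A r).card + k)
    (hC : ∀ c, δ ≤ (Nc A c).card) {R : Finset P} {C : Finset Q} (hCp : Cp A k R C) (v : Q) :
    (R ∩ Nc A v).card + δ ≤ x + 3 := by
  have hδ : (Nc A v).card ≤ x + 1 := deg_le (A := fun c r => A r c) cP (U_swap hU) v
  have hδ' := hC v
  rcases (R ∩ Nc A v).eq_empty_or_nonempty with h | ⟨r, hrv⟩
  · rw [h, card_empty]; omega
  obtain ⟨hrR, hrv'⟩ := mem_inter.1 hrv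
  have hA := mem_Nc.1 hrv'
  obtain ⟨R', C', h', hrR', hvC'⟩ := hU r v hA
  have hne : (C ∩ C').Nonempty := by
    by_contra hcon
    rw [not_nonempty_iff_eq_empty] at hcon
    have e1 : C' ∩ Nr A r = {v} := Cp_inter h' hrR' hvC' hA
    have e2 : (C ∩ Nr A r).card = 1 := hCp.row r hrR
    have e3 : (C ∪ C').card = k + k := by
      rw [card_union_of_disjoint (disjoint_iff_inter_eq_empty.2 hcon), hCp.cC, h'.cC]
    have e4 : ((C ∪ C') ∩ Nr A r).card ≤ 2 := by
      rw [union_inter_distrib_right]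
      have := card_union_le (C ∩ Nr A r) (C' ∩ Nr A r)
      rw [e1, card_singleton, e2] at this
      rw [e1]
      exact this
    have e5 := card_union_add_card_inter (C ∪ C') (Nr A r)
    have e6 : ((C ∪ C') ∪ Nr A r).card ≤ k + x := by
      rw [← cQ, ← card_univ]
      exact card_le_card (subset_univ _)
    have := hr r
    omega
  obtain ⟨q, hq⟩ := hne
  obtain ⟨hqC, hqC'⟩ := mem_inter.1 hq
  have hrel : (Nc A v ∪ Nc A q).card ≤ x + 2 :=
    rel_le (A := fun c r => A r c) (k := k) cP (r := v) (r' := q)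
      ⟨C', R', Cp_swap h', hvC', hqC'⟩
  have h3 : (R ∩ Nc A q).card = 1 := hCp.col q hqC
  have h4 : ((R ∩ Nc A v) \ Nc A q).card + (Nc A q).card ≤ (Nc A v ∪ Nc A q).card := by
    rw [← card_union_of_disjoint sdiff_disjoint]
    apply card_le_card
    intro y hy
    rcases mem_union.1 hy with h | h
    · exact mem_union_left _ (mem_inter.1 (mem_sdiff.1 h).1).2
    · exact mem_union_right _ h
  have h5 : (R ∩ Nc A v).card ≤ ((R ∩ Nc A v) \ Nc A q).card + 1 := by
    have e1 := card_sdiff_add_card_inter (R ∩ Nc A v) (Nc A q)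
    have e2 : ((R ∩ Nc A v) ∩ Nc A q).card ≤ (R ∩ Nc A q).card := by
      apply card_le_card
      intro y hy
      obtain ⟨h1, h2⟩ := mem_inter.1 hy
      exact mem_inter.2 ⟨(mem_inter.1 h1).1, h2⟩
    omega
  have h6 := hC q
  omega

theorem reg_sum (A : P → Q → Bool) (R : Finset P) :
    ∑ r ∈ R, (Nr A r).card = ∑ c, (R ∩ Nc A c).card := by
  have e1 : ∀ r, (Nr A r).card = ∑ c, if A r c = true then 1 else 0 := by
    intro r; unfold Nr; rw [card_filter]
  have e2 : ∀ c, (R ∩ Nc A c).card = ∑ r ∈ R, if A r c = true then 1 else 0 := by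
    intro c; unfold Nc; rw [inter_filter, inter_univ, card_filter]
  simp_rw [e1, e2]
  rw [sum_comm]

/-- nearly regular matrices: rows have at most `D` ones, columns at least `δ` ones -/
theorem near_regular {A : P → Q → Bool} {k x D δ : ℕ} (cP : Fintype.card P = k + x)
    (cQ : Fintype.card Q = k + x) (hU : U A k) (hR : ∀ r, (Nr A r).card ≤ D)
    (hr : ∀ r, x + 3 ≤ (Nr A r).card + k)
    (hC : ∀ c, δ ≤ (Nc A c).card) {R : Finset P} {C : Finset Q} (hCp : Cp A k R C) :
    (E A).card + x * δ ≤ x ^ 2 + 3 * x + k + x * D := by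
  have key := fun v => reg_key cP cQ hU hr hC hCp v
  have hCc : (Cᶜ).card = x := by rw [card_compl, cQ, hCp.cC]; omega
  have hRc : (Rᶜ).card = x := by rw [card_compl, cP, hCp.cR]; omega
  have s1 : (E A).card = ∑ r ∈ R, (Nr A r).card + ∑ r ∈ Rᶜ, (Nr A r).card := by
    rw [card_E_rows, sum_add_sum_compl]
  have s2 : ∑ r ∈ Rᶜ, (Nr A r).card ≤ x * D := by
    calc ∑ r ∈ Rᶜ, (Nr A r).card ≤ ∑ _r ∈ Rᶜ, D := sum_le_sum fun r _ => hR r
      _ = x * D := by rw [sum_const, hRc, smul_eq_mul]
  have s3 : ∑ c, (R ∩ Nc A c).card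
      = ∑ c ∈ C, (R ∩ Nc A c).card + ∑ c ∈ Cᶜ, (R ∩ Nc A c).card := by
    rw [sum_add_sum_compl]
  have s4 : ∑ c ∈ C, (R ∩ Nc A c).card = k := by
    rw [sum_congr rfl (fun c hc => hCp.col c hc), sum_const, hCp.cC, smul_eq_mul, mul_one]
  have s5 : ∑ c ∈ Cᶜ, (R ∩ Nc A c).card + x * δ ≤ x * (x + 3) := by
    calc ∑ c ∈ Cᶜ, (R ∩ Nc A c).card + x * δ
        = ∑ c ∈ Cᶜ, ((R ∩ Nc A c).card + δ) := by
          rw [sum_add_distrib, sum_const, hCc, smul_eq_mul]
      _ ≤ ∑ _c ∈ Cᶜ, (x + 3) := sum_le_sum fun c _ => key c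
      _ = x * (x + 3) := by rw [sum_const, hCc, smul_eq_mul]
  rw [s1, reg_sum, s3, s4]
  nlinarith [s2, s5]

/-- **the regular case**: if all rows and all columns have the same number of ones, the
conjectured bound holds, for all `n = k + x`, `k ≥ 2` -/
theorem regular {A : P → Q → Bool} {k x D : ℕ} (cP : Fintype.card P = k + x)
    (cQ : Fintype.card Q = k + x) (hU : U A k) (hk : 2 ≤ k) (hR : ∀ r, (Nr A r).card = D)
    (hC : ∀ c, (Nc A c).card = D) : (E A).card ≤ (x + 1) ^ 2 + (k + x - 1) := by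
  have hE : (E A).card = (k + x) * D := by
    rw [card_E_rows, sum_congr rfl (fun r _ => hR r), sum_const, card_univ, cP, smul_eq_mul]
  have hgoal : (x + 1) ^ 2 + (k + x - 1) = x ^ 2 + 3 * x + k := by
    have : k + x - 1 + 1 = k + x := by omega
    nlinarith [this]
  rw [hgoal]
  by_cases h : D + k ≤ x + 3
  · rw [hE]
    have h1 : D ≤ x + 3 - k := by omega
    obtain ⟨m, hm⟩ : ∃ m, x + 3 = k + D + m := ⟨x + 3 - k - D, by omega⟩
    have h2 : x = k + D + m - 3 := by omega
    obtain ⟨j, hj⟩ : ∃ j, k = j + 2 := ⟨k - 2, by omega⟩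
    subst hj
    nlinarith [mul_nonneg (Nat.zero_le m) (Nat.zero_le D), Nat.zero_le (m * D),
      Nat.zero_le (m * j), Nat.zero_le (j * D), Nat.zero_le (j * j), Nat.zero_le (m * m)]
  · push Not at h
    rcases (E A).eq_empty_or_nonempty with h0 | ⟨⟨r, c⟩, h0⟩
    · rw [h0, card_empty]; exact Nat.zero_le _
    · have hA : A r c = true := by simpa [E] using h0
      obtain ⟨R, C, hCp, _, _⟩ := hU r c hA
      have := near_regular (D := D) (δ := D) cP cQ hU (fun r => (hR r).le)
        (fun r => by rw [hR r]; omega) (fun c => (hC c).ge) hCp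
      omega

/-- the ordered problem: a strongly `I_k`-forcing matrix with constant line sums has at most the
conjectured number of ones -/
theorem regular_forcing {n k D : ℕ} {A : Fin n → Fin n → Bool} (hk : 2 ≤ k) (hkn : k ≤ n)
    (hA : SIF.StronglyForcing (SIF.idMat k) A) (hR : ∀ r, (Nr A r).card = D)
    (hC : ∀ c, (Nc A c).card = D) : (E A).card ≤ (n - k + 1) ^ 2 + (n - 1) := by
  have h := regular (A := A) (k := k) (x := n - k) (by rw [Fintype.card_fin]; omega)
    (by rw [Fintype.card_fin]; omega) (U_of_strong hA) hk hR hC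
  have e : k + (n - k) - 1 = n - 1 := by omega
  rw [e] at h
  exact h

end SIFU
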